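import Pool.Agent.T9h45.LD.Spec

/-!
Edges inside small classes.
-/

set_option autoImplicit false

namespace Pool.Agent.T9h64.LD

open Finset Classical Pool.T9h45.HY Pool.T9h45.CP Pool.T9h45.LD

variable {V : Type} [Fintype V]

lemma cn_mono {P Q : V → Prop} (h : ∀ z, P z → Q z) : cn P ≤ cn Q := by
  unfold cn
  apply card_le_card
  intro z hz
  rw [mem_filter] at hz ⊢
  exact ⟨hz.1, h z hz.2⟩

lemma cn_or_le {P Q R : V → Prop} (h : ∀ z, P z → Q z ∨ R z) : cn P ≤ cn Q + cn R := by
  unfold cn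
  refine (card_le_card ?_).trans (card_union_le _ _)
  intro z hz
  rw [mem_filter] at hz
  rw [mem_union, mem_filter, mem_filter]
  rcases h z hz.2 with h1 | h1
  · exact Or.inl ⟨hz.1, h1⟩
  · exact Or.inr ⟨hz.1, h1⟩

lemma cn_disj {P Q T : V → Prop} (hP : ∀ z, P z → T z) (hQ : ∀ z, Q z → T z)
    (hd : ∀ z, P z → ¬ Q z) : cn P + cn Q ≤ cn T := by
  unfold cn
  rw [← card_union_of_disjoint]
  · apply card_le_card
    intro z hz
    rw [mem_union, mem_filter, mem_filter] at hz
    rw [mem_filter]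
    rcases hz with hz | hz
    · exact ⟨hz.1, hP z hz.2⟩
    · exact ⟨hz.1, hQ z hz.2⟩
  · rw [disjoint_left]
    intro z h1 h2
    rw [mem_filter] at h1 h2
    exact hd z h1.2 h2.2

lemma cn_split (P : V → Prop) (f : V → ℕ) (y : V) (hy : P y)
    (hs : ∀ c < f y, ∃ z, P z ∧ f z = c) :
    cn (fun z => z ≠ y ∧ P z ∧ f y ≤ f z) + 1 + f y ≤ cn P := by
  have h1 : f y ≤ cn (fun z => P z ∧ f z < f y) := by
    unfold cn
    have h2 : range (f y) ⊆ (univ.filter fun z => P z ∧ f z < f y).image f := by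
      intro c hc
      rw [mem_range] at hc
      obtain ⟨z, hz, hzc⟩ := hs c hc
      rw [mem_image]
      refine ⟨z, ?_, hzc⟩
      rw [mem_filter]
      exact ⟨mem_univ _, hz, by omega⟩
    have h3 := (card_le_card h2).trans card_image_le
    rw [card_range] at h3
    refine le_trans h3 (le_of_eq ?_)
    congr!
  have h3 : cn (fun z => z ≠ y ∧ P z ∧ f y ≤ f z) + cn (fun z => P z ∧ f z < f y) ≤
      cn (fun z => z ≠ y ∧ P z) := by
    apply cn_disj
    · exact fun z hz => ⟨hz.1, hz.2.1⟩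
    · intro z hz
      refine ⟨?_, hz.1⟩
      rintro rfl
      exact lt_irrefl _ hz.2
    · intro z hz h4
      have := hz.2.2
      have := h4.2
      omega
  have h5 : cn (fun z => z ≠ y ∧ P z) + 1 ≤ cn P := by
    have h6 : cn (fun z => z = y) = 1 := by
      unfold cn
      rw [card_eq_one]
      refine ⟨y, ?_⟩
      ext z
      simp
    rw [← h6]
    apply cn_disj
    · exact fun z hz => hz.2
    · rintro z rfl
      exact hy
    · exact fun z hz => hz.1
  omega

theorem e1 : SE1 := by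
  intro V _ G cl D h p S big inn σ f hd x y hSx hSy hxy hcl hbx
  have hby : ¬ big y := fun hb => hbx ((hd.bigcl x y hcl).2 hb)
  -- the two counts inside the class
  have k1 := cn_split (fun z => ¬ S z ∧ G.Adj x z ∧ cl z = cl x) f y ⟨hSy, hxy, hcl.symm⟩
    (by
      intro c hc
      obtain ⟨w, hw1, hw2, hw3⟩ := hd.fsurj y c hc
      have hSw : ¬ S w := fun h1 => hSy (hw2.1 h1)
      rcases hd.ssee x w hbx hSx hSw (hw1.trans hcl.symm) with h1 | h1
      · exact ⟨w, ⟨hSw, h1, hw1.trans hcl.symm⟩, hw3⟩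
      · refine ⟨σ w, ⟨fun h2 => hSw ((hd.Ss w).1 h2), h1, ?_⟩, ?_⟩
        · rw [hd.cls]
          exact hw1.trans hcl.symm
        · rw [hd.fs]
          exact hw3)
  have k2 := cn_split (fun z => S z ∧ cl z = cl x) f x ⟨hSx, rfl⟩
    (by
      intro c hc
      obtain ⟨w, hw1, hw2, hw3⟩ := hd.fsurj x c hc
      exact ⟨w, ⟨hw2.2 hSx, hw1⟩, hw3⟩)
  -- the sizes
  have k3 : cn (fun z => ¬ S z ∧ G.Adj x z ∧ cl z = cl x) + cn (fun z => S z ∧ cl z = cl x) +
      cNon G cl x ≤ cN cl x := by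
    have h1 : cn (fun z => ¬ S z ∧ G.Adj x z ∧ cl z = cl x) + cn (fun z => S z ∧ cl z = cl x) ≤
        cn (fun z => cl z = cl x ∧ (z = x ∨ G.Adj x z)) := by
      apply cn_disj
      · exact fun z hz => ⟨hz.2.2, Or.inr hz.2.1⟩
      · intro z hz
        refine ⟨hz.2, ?_⟩
        by_cases hzx : z = x
        · exact Or.inl hzx
        · exact Or.inr (hd.sclique x z hbx hSx hz.1 hz.2.symm (Ne.symm hzx))
      · exact fun z hz h2 => hz.1 h2.1
    have h2 : cn (fun z => cl z = cl x ∧ (z = x ∨ G.Adj x z)) + cNon G cl x ≤ cN cl x := by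
      unfold cNon cN
      apply cn_disj
      · exact fun z hz => hz.1
      · exact fun z hz => hz.1
      · rintro z ⟨-, hz⟩ ⟨-, h3, h4⟩
        rcases hz with hz | hz
        · exact h3 hz
        · exact h4 hz
    omega
  have k4 : cE G cl x + cN cl x ≤ D + 1 + cNon G cl x := by
    have h1 : cN cl x ≤ cn (fun z => z = x ∨ (cl z = cl x ∧ G.Adj x z)) + cNon G cl x := by
      unfold cN cNon
      apply cn_or_le
      intro z hz
      by_cases h2 : z = x
      · exact Or.inl (Or.inl h2)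
      · by_cases h3 : G.Adj x z
        · exact Or.inl (Or.inr ⟨hz, h3⟩)
        · exact Or.inr ⟨hz, h2, h3⟩
    have h2 : cn (fun z => z = x ∨ (cl z = cl x ∧ G.Adj x z)) ≤
        cn (fun z => z = x) + cn (fun z => cl z = cl x ∧ G.Adj x z) := cn_or_le fun z hz => hz
    have h3 : cn (fun z => z = x) = 1 := by
      unfold cn
      rw [card_eq_one]
      refine ⟨x, ?_⟩
      ext z
      simp
    have h4 : cE G cl x + cn (fun z => cl z = cl x ∧ G.Adj x z) ≤ cn (fun w => G.Adj x w) := by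
      unfold cE
      apply cn_disj
      · exact fun z hz => hz.1
      · exact fun z hz => hz.2
      · exact fun z hz h5 => hz.2 h5.1
    have h5 := hd.hdeg x
    omega
  have k5 : cO G S cl x ≤ cE G cl x := by
    unfold cO cE
    exact cn_mono fun z hz => ⟨hz.1, hz.2.1⟩
  -- the preferences
  have p1 : pf cl S big inn f D h x y = f y + 1 := by
    unfold pf
    rw [if_neg (by rw [hcl]; exact fun h1 => h1 rfl), if_neg (fun h1 => hbx h1.1)]
  have p2 : pf cl S big inn f D h y x = f x + 1 := by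
    unfold pf
    rw [if_neg (by rw [hcl]; exact fun h1 => h1 rfl), if_neg (fun h1 => hby h1.1)]
  have a1 : cn (fun z => z ≠ y ∧ ¬ S z ∧ G.Adj x z ∧
      pf cl S big inn f D h x y ≤ pf cl S big inn f D h x z) ≤ cO G S cl x +
      cn (fun z => z ≠ y ∧ (¬ S z ∧ G.Adj x z ∧ cl z = cl x) ∧ f y ≤ f z) := by
    unfold cO
    apply cn_or_le
    rintro z ⟨hz1, hz2, hz3, hz4⟩
    by_cases hz : cl z = cl x
    · right
      refine ⟨hz1, ⟨hz2, hz3, hz⟩, ?_⟩
      have p3 : pf cl S big inn f D h x z = f z + 1 := by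
        unfold pf
        rw [if_neg (by rw [hz]; exact fun h1 => h1 rfl), if_neg (fun h1 => hbx h1.1)]
      rw [p1, p3] at hz4
      omega
    · left
      exact ⟨hz3, hz, fun h1 => hz2 (h1.2 hSx)⟩
  have a2 : cn (fun z => z ≠ x ∧ S z ∧ G.Adj y z ∧
      pf cl S big inn f D h y x ≤ pf cl S big inn f D h y z) ≤
      (if inn y then 0 else cO G S cl y) +
      cn (fun z => z ≠ x ∧ (S z ∧ cl z = cl x) ∧ f x ≤ f z) := by
    have hin : ∀ z, cl z = cl y → pf cl S big inn f D h y x ≤ pf cl S big inn f D h y z →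
        f x ≤ f z := by
      intro z hz hz4
      have p3 : pf cl S big inn f D h y z = f z + 1 := by
        unfold pf
        rw [if_neg (by rw [hz]; exact fun h1 => h1 rfl), if_neg (fun h1 => hby h1.1)]
      rw [p2, p3] at hz4
      omega
    split_ifs with hi
    · rw [zero_add]
      apply cn_mono
      rintro z ⟨hz1, hz2, hz3, hz4⟩
      by_cases hz : cl z = cl y
      · exact ⟨hz1, ⟨hz2, hz.trans hcl.symm⟩, hin z hz hz4⟩
      · exfalso
        have p3 : pf cl S big inn f D h y z = 0 := by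
          unfold pf
          rw [if_pos hz, if_pos ⟨hby, hSy, hi⟩]
        rw [p2, p3] at hz4
        omega
    · unfold cO
      apply cn_or_le
      rintro z ⟨hz1, hz2, hz3, hz4⟩
      by_cases hz : cl z = cl y
      · exact Or.inr ⟨hz1, ⟨hz2, hz.trans hcl.symm⟩, hin z hz hz4⟩
      · exact Or.inl ⟨hz3, hz, fun h1 => hSy (h1.1 hz2)⟩
  show _ + _ + f x + f y < D
  by_cases hi : inn y
  · rw [if_pos hi] at a2
    omega
  · rw [if_neg hi] at a2
    have h1 := hd.sI x y hbx hSx hSy hcl.symm hi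
    omega

end Pool.Agent.T9h64.LD
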